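import Pool.Agent.Q133.HL.Comp
import Pool.Agent.Y577.BT.R

set_option autoImplicit false

/-!
# Individual Betti bounds for limits, in terms of a component of the general member

Let `f_1, …, f_m` be a regular sequence in the `k`-algebra `S` with `μ = dim S / (f)` finite, for
example the variables of a polynomial ring over the field `k` (`μ = 1`), and let `M` be an
`S`-module of finite dimension `N` over `k` on which the `f_j` are nilpotent. Suppose that `M` is a specialisation: there are a
domain `A`, a homomorphism `φ : A → L` to an extension field `L` of `k` and pairwise commuting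
`N × N` matrices `Z_1, …, Z_m` over `A` such that `φ (Z_j)` is the matrix of `f_j` on `M`. Let `E`
be a nonzero direct summand of the family over a field `K` containing `A` which is supported at one
point `(c_1, …, c_m)` of `K^m`: the operators `e_j` induced by the `Z_j - c_j` on `E` are nilpotent.
Nothing is supposed about the point, about the other points of the support and about `E`.

Let finally `E = ⨁_{α, γ} 𝒜 α γ` with `e_j (𝒜 α γ) ⊆ 𝒜 α (γ + δ_j)`, so that `E` is the direct sum
of the graded modules `E_α = ⨁_γ 𝒜 α γ`, `α = 1, …, r`, whose dimensions are nonzero in `K`. Then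
every resolution of `M` by finite free `S`-modules has

  `∑_α (m.choose i) / W_α ≤ μ * rank F_i`,

where `W_α` bounds the dimensions of the sums of the pieces of `E_α` of degrees `γ - D`, `D` running
over the different sums of `i` of the degrees `δ_j`. In particular

* `m.choose i ≤ dim E * μ * rank F_i` if `dim E` is nonzero in `K` (`r = 1`, trivial grading);
* `dim E * m.choose i ≤ μ * rank F_i` if the `e_j` are zero on `E` (`r = dim E`).

The second part of the result states these two cases.
-/

namespace Pool.Agent.Results.MP_e2ce73_al.ComponentsOfLimits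

open Matrix Pool.Agent.W650 Pool.Agent.TH488.BEH Pool.Agent.Q133.HL Pool.Agent.Y577.BT

universe u v w x

theorem result (k : Type u) [Field k] (S : Type w) [CommRing S] [Algebra k S]
    (m N : ℕ) (f : Fin m → S)
    (hreg : ∀ (l : Fin m) (s : S), f l * s ∈ Ideal.span (f '' Set.Iio l) →
      s ∈ Ideal.span (f '' Set.Iio l))
    [Module.Finite k (S ⧸ Ideal.span (Set.range f))]
    -- the module `M`, supported at the origin
    (M : Type v) [AddCommGroup M] [Module k M] [Module S M] [IsScalarTower k S M]
    (hnil : ∀ j : Fin m, ∃ s : ℕ, ∀ x : M, f j ^ s • x = 0)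
    (b : Module.Basis (Fin N) k M)
    -- the family with special fibre `M`
    (A : Type w) [CommRing A] [IsDomain A] (L : Type w) [Field L] [Algebra k L] (φ : A →+* L)
    (K : Type w) [Field K] [Algebra A K] (hAK : Function.Injective (algebraMap A K))
    (Z : Fin m → Matrix (Fin N) (Fin N) A) (hZ : ∀ i j, Z i * Z j = Z j * Z i)
    (hφ : ∀ j a c, φ (Z j a c) = algebraMap k L (b.repr (f j • b c) a))
    -- the direct summand `E` over `K`, supported at the point `c`
    (E : Type w) [AddCommGroup E] [Module K E] [Nontrivial E]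
    (c : Fin m → K) (e : Fin m → E →ₗ[K] E)
    (he : ∀ j, ∃ s : ℕ, ∀ x : E, ((e j : Module.End K E) ^ s) x = 0)
    (ι : E →ₗ[K] (Fin N → K)) (p : (Fin N → K) →ₗ[K] E) (hp : ∀ x, p (ι x) = x)
    (hι : ∀ j x, ((Z j).map (algebraMap A K)) *ᵥ ι x = ι (e j x) + c j • ι x)
    (hp' : ∀ j y, p (((Z j).map (algebraMap A K)) *ᵥ y) = e j (p y) + c j • p y)
    -- the resolution of `M`
    (F : ℕ → Type v) [∀ i, AddCommGroup (F i)] [∀ i, Module S (F i)]
    [∀ i, Module.Free S (F i)] [∀ i, Module.Finite S (F i)]
    (d : ∀ i, F (i + 1) →ₗ[S] F i) (ε : F 0 →ₗ[S] M) (hε : Function.Surjective ε)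
    (hd0 : LinearMap.range (d 0) = LinearMap.ker ε)
    (hd : ∀ i, LinearMap.range (d (i + 1)) = LinearMap.ker (d i)) (i : ℕ) :
    (∀ (Γ : Type x) [AddCommGroup Γ] [DecidableEq Γ] (δ : Fin m → Γ) (r : ℕ)
      (𝒜 : Fin r → Γ → Submodule K E)
      (_ : DirectSum.IsInternal (fun p : Fin r × Γ => 𝒜 p.1 p.2))
      (_ : ∀ j α γ, ∀ x ∈ 𝒜 α γ, e j x ∈ 𝒜 α (γ + δ j))
      (_ : ∀ α, (Module.finrank K ↥(⨆ γ, 𝒜 α γ) : K) ≠ 0)
      (W : Fin r → ℕ) (_ : ∀ α, DegBound K δ i (𝒜 α) (W α)),
      ∑ α, (m.choose i : ℚ) / W α ≤
        Module.finrank k (S ⧸ Ideal.span (Set.range f)) * Module.finrank S (F i)) ∧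
    ((Module.finrank K E : K) ≠ 0 → m.choose i ≤ Module.finrank K E *
      (Module.finrank k (S ⧸ Ideal.span (Set.range f)) * Module.finrank S (F i))) ∧
    ((∀ j x, e j x = 0) → Module.finrank K E * m.choose i ≤
      Module.finrank k (S ⧸ Ideal.span (Set.range f)) * Module.finrank S (F i)) := by
  classical
  have hfdM : FiniteDimensional k M := b.finiteDimensional_of_finite
  have hιinj : Function.Injective ι := Function.LeftInverse.injective hp
  have hfdE : FiniteDimensional K E := FiniteDimensional.of_injective ι hιinj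
  have hNM : Nontrivial M := by
    obtain ⟨x, hx⟩ := exists_ne (0 : E)
    have hN : N ≠ 0 := by
      rintro rfl
      exact hx (hιinj (Subsingleton.elim _ _))
    exact ⟨b ⟨0, Nat.pos_of_ne_zero hN⟩, 0, b.ne_zero _⟩
  have : Nontrivial S := Module.nontrivial S M
  -- the operators commute
  have hcom : ∀ i j x, e i (e j x) = e j (e i x) := by
    intro i j x
    apply hιinj
    have h1 : ∀ j x, ι (e j x) = ((Z j).map (algebraMap A K)) *ᵥ ι x - c j • ι x := by
      intro j x
      rw [hι, add_sub_cancel_right]
    have h2 : (Z i).map (algebraMap A K) * (Z j).map (algebraMap A K) =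
        (Z j).map (algebraMap A K) * (Z i).map (algebraMap A K) := by
      rw [← Matrix.map_mul, ← Matrix.map_mul, hZ i j]
    rw [h1, h1, h1, h1, mulVec_sub, mulVec_sub, mulVec_mulVec, mulVec_mulVec, h2, mulVec_smul,
      mulVec_smul, smul_sub, smul_sub, smul_comm (c i) (c j)]
    abel
  -- the comparison
  have h3 : hk (ex e) m i ≤ hk (opv k (ex f) M) m i := by
    refine core b m (opv k (ex f) M) (opv_comm _ M _) ?_ φ hAK (ex Z) ?_ ?_ (ex c) ι p hp
      (ex e) ?_ ?_ ?_ i
    · intro j hj
      obtain ⟨s, hs⟩ := hnil ⟨j, hj⟩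
      refine ⟨s, ?_⟩
      have h5 : ((opv k (ex f) M j : Module.End k M) ^ s) =
          Algebra.lsmul k k M ((ex f j) ^ s) := by
        rw [map_pow]
        rfl
      rw [h5, ex_lt f j hj]
      exact LinearMap.ext hs
    · intro i hi j hj
      rw [ex_lt Z i hi, ex_lt Z j hj]
      exact hZ _ _
    · intro j hj
      rw [ex_lt Z j hj]
      ext x y
      rw [Matrix.map_apply, Matrix.map_apply, hφ, LinearMap.toMatrix_apply, opv_apply,
        ex_lt f j hj]
    · intro j hj x
      rw [ex_lt Z j hj, ex_lt c j hj, ex_lt e j hj]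
      exact hι _ x
    · intro j hj y
      rw [ex_lt Z j hj, ex_lt c j hj, ex_lt e j hj]
      exact hp' _ y
    · intro j hj
      rw [ex_lt e j hj]
      obtain ⟨s, hs⟩ := he ⟨j, hj⟩
      exact ⟨s, LinearMap.ext hs⟩
  have h6 : hk (ex e) m i ≤
      Module.finrank k (S ⧸ Ideal.span (Set.range f)) * Module.finrank S (F i) :=
    h3.trans (rank_bound k S m f hreg M F d ε hε hd0 hd i)
  have h7 : (hk (ex e) m i : ℚ) ≤
      Module.finrank k (S ⧸ Ideal.span (Set.range f)) * Module.finrank S (F i) := by
    exact_mod_cast h6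
  have main : ∀ (Γ : Type x) [AddCommGroup Γ] [DecidableEq Γ] (δ : Fin m → Γ) (r : ℕ)
      (𝒜 : Fin r → Γ → Submodule K E)
      (_ : DirectSum.IsInternal (fun p : Fin r × Γ => 𝒜 p.1 p.2))
      (_ : ∀ j α γ, ∀ x ∈ 𝒜 α γ, e j x ∈ 𝒜 α (γ + δ j))
      (_ : ∀ α, (Module.finrank K ↥(⨆ γ, 𝒜 α γ) : K) ≠ 0)
      (W : Fin r → ℕ) (_ : ∀ α, DegBound K δ i (𝒜 α) (W α)),
      ∑ α, (m.choose i : ℚ) / W α ≤
        Module.finrank k (S ⧸ Ideal.span (Set.range f)) * Module.finrank S (F i) :=
    fun Γ _ _ δ r 𝒜 h1 h2 h3 W hW =>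
      (pieces K Γ m E e hcom he r 𝒜 h1 δ h2 h3 i W hW).trans h7
  refine ⟨main, fun hdim => ?_, fun h0 => ?_⟩
  · have h8 := main PUnit.{x + 1} (fun _ => 0) 1 (fun _ _ => ⊤) (by
        rw [DirectSum.isInternal_submodule_iff_iSupIndep_and_iSup_eq_top]
        exact ⟨iSupIndep_subsingleton _, by simp⟩) (fun _ _ _ _ _ => Submodule.mem_top)
      (fun α => by rw [iSup_const, finrank_top]; exact hdim) (fun _ => Module.finrank K E)
      (fun _ T _ γ => by
        rw [Finset.sum_const, finrank_top, smul_eq_mul]
        calc T.card * Module.finrank K E ≤ 1 * Module.finrank K E :=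
              Nat.mul_le_mul_right _ (Finset.card_le_one_of_subsingleton T)
          _ = _ := one_mul _)
    simp only [Finset.univ_unique, Finset.sum_const, Finset.card_singleton, one_smul] at h8
    rw [div_le_iff₀ (by exact_mod_cast (Module.finrank_pos (R := K) (M := E)))] at h8
    rw [mul_comm]
    exact_mod_cast h8
  · let bE := Module.finBasis K E
    have h8 := main PUnit.{x + 1} (fun _ => 0) (Module.finrank K E)
      (fun α _ => Submodule.span K {bE α}) (by
        rw [DirectSum.isInternal_submodule_iff_iSupIndep_and_iSup_eq_top]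
        constructor
        · exact (bE.linearIndependent.iSupIndep_span_singleton).comp
            (f := (Prod.fst : Fin (Module.finrank K E) × PUnit.{x + 1} →
              Fin (Module.finrank K E)))
            (fun p q h => Prod.ext h rfl)
        · rw [iSup_prod]
          simp only [iSup_const]
          rw [← Submodule.span_range_eq_iSup, bE.span_eq])
      (fun j α γ x _ => by
        rw [h0 j x]
        exact Submodule.zero_mem _)
      (fun α => by
        rw [iSup_const, finrank_span_singleton (bE.ne_zero α)]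
        simp) (fun _ => 1) (fun α T _ γ => by
          simp only [finrank_span_singleton (bE.ne_zero α)]
          rw [Finset.sum_const, smul_eq_mul, mul_one]
          exact Finset.card_le_one_of_subsingleton T)
    simp only [Nat.cast_one, div_one, Finset.sum_const, Finset.card_univ, Fintype.card_fin,
      nsmul_eq_mul] at h8
    exact_mod_cast h8

end Pool.Agent.Results.MP_e2ce73_al.ComponentsOfLimits
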