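import Pool.Agent.Q133.DW.Main

set_option autoImplicit false

/-!
# Betti numbers and degree windows over weighted polynomial rings

`M` is a nonzero finite-dimensional graded module over `S = k[X_1, …, X_m]`, where `X_j` has any
positive degree `w_j`. Suppose that `Tor_s (M, k)` lives in degrees between `a_s` and `b_s` for all
`s` (strictly increasing sequences), and for a given `i` that the windows of the indices below `i`
do not overlap and neither do those of the indices above `i`. Then every resolution of `M` by finite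
free modules has

* `m! * ∏ w_j * dim M ≤ rank F_i * ∏_{r < i} (b_i - a_r) * ∏_{r > i} (b_r - a_i)`;
* `β_0 * ∏_{0 < r < i} (a_r - b_0) * ∏_{r > i} (b_r - b_0) ≤
   rank F_i * ∏_{0 < r < i} (b_i - a_r) * ∏_{r > i} (b_r - a_i)`, `β_0 ≥ 1` the number of generators;
* `β_0 * m.choose i ≤ rank F_i` if `(b_s - b_0) / s ≤ (a_r - b_0) / r` for all `0 < r < s ≤ m`.

The proof uses the vanishing of `∑ (-1)^s * dim Tor_s (M, k)_E * P (E)` for polynomials `P` of degree
`< m` (it holds for all weights; in degree `m` there is one more equation), for the polynomial `P`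
with a root at the left end of every window below `i` and at the right end of every window above `i`.
-/

namespace Pool.Agent.Results.MP_e2ce73_al.DegreeWindows

open MvPolynomial Pool.Agent.W650 Pool.Agent.Y577.BT

universe u v

/-- the variable `X_j` for `j < m` (and `0` for `j ≥ m`) -/
noncomputable def var (k : Type u) [Field k] (m : ℕ) : ℕ → MvPolynomial (Fin m) k :=
  fun j => if h : j < m then X ⟨j, h⟩ else 0

/-- its degree -/
def deg {m : ℕ} (w : Fin m → ℕ) : ℕ → ℤ := fun j => if h : j < m then (w ⟨j, h⟩ : ℤ) else 0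

/-- the dimension of the part of internal degree `E` of `Tor_s (M, k)`: of the `s`-th homology of
the part of internal degree `E` of the Koszul complex of `X_1, …, X_m` on `M` -/
noncomputable def tor (k : Type u) [Field k] (m : ℕ) (M : Type v) [AddCommGroup M] [Module k M]
    [Module (MvPolynomial (Fin m) k) M] [IsScalarTower k (MvPolynomial (Fin m) k) M]
    (w : Fin m → ℕ) (ℳ : ℤ → Submodule k M) (s : ℕ) (E : ℤ) : ℕ :=
  Module.finrank k ((kx (opv k (var k m) M) ℳ (deg w) m E).H (s : ℤ))

/-- `Tor_s` lives in degrees between `a s` and `b s` for `s ≤ m`; the windows of the indices below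
`i` do not overlap, and neither do those of the indices above `i`. -/
structure Windows (m i : ℕ) (t : ℕ → ℤ → ℕ) (a b : ℕ → ℤ) : Prop where
  mono_a : StrictMono a
  mono_b : StrictMono b
  le : a i ≤ b i
  mem : ∀ s ≤ m, ∀ E, t s E ≠ 0 → a s ≤ E ∧ E ≤ b s
  below : ∀ r s, s < r → r < i → b s ≤ a r
  above : ∀ r s, i < r → r < s → s ≤ m → b r ≤ a s

/-- **The result.** -/
theorem result (k : Type u) [Field k] (m : ℕ)
    (M : Type v) [AddCommGroup M] [Module k M] [FiniteDimensional k M] [Nontrivial M]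
    [Module (MvPolynomial (Fin m) k) M] [IsScalarTower k (MvPolynomial (Fin m) k) M]
    (w : Fin m → ℕ) (hw : ∀ j, 0 < w j) (ℳ : ℤ → Submodule k M)
    (hℳ : DirectSum.IsInternal ℳ)
    (hX : ∀ (j : Fin m) (e : ℤ), ∀ x ∈ ℳ e,
      (X j : MvPolynomial (Fin m) k) • x ∈ ℳ (e + w j))
    (R : FreeRes (MvPolynomial (Fin m) k) M) (i : ℕ) (hi : i ≤ m) (a b : ℕ → ℤ)
    (W : Windows m i (tor k m M w ℳ) a b) (β : ℤ)
    (hβ : β = ∑ E ∈ Finset.Icc (a 0) (b 0), (tor k m M w ℳ 0 E : ℤ)) :
    1 ≤ β ∧
    (m.factorial : ℤ) * (∏ j, (w j : ℤ)) * (Module.finrank k M : ℤ) ≤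
      R.rank i * ((∏ r ∈ Finset.Ico 0 i, (b i - a r)) *
        ∏ r ∈ Finset.Ico (i + 1) (m + 1), (b r - a i)) ∧
    (0 < i → β * ((∏ r ∈ Finset.Ico 1 i, (a r - b 0)) *
          ∏ r ∈ Finset.Ico (i + 1) (m + 1), (b r - b 0)) ≤
      R.rank i * ((∏ r ∈ Finset.Ico 1 i, (b i - a r)) *
        ∏ r ∈ Finset.Ico (i + 1) (m + 1), (b r - a i))) ∧
    ((∀ r s : ℕ, 0 < r → r < s → s ≤ m → (r : ℤ) * (b s - b 0) ≤ s * (a r - b 0)) →
      β * m.choose i ≤ R.rank i ∧ m.choose i ≤ R.rank i) := by
  classical
  have hlen : (List.finRange m).length = m := List.length_finRange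
  have hvar : var k m = cL k (List.finRange m) := by
    funext j
    unfold var cL
    by_cases h : j < m
    · rw [dif_pos h, dif_pos (by rw [hlen]; exact h), List.getElem_finRange]
      rfl
    · rw [dif_neg h, dif_neg (by rw [hlen]; exact h)]
  have hdeg : ∏ j ∈ Finset.range m, deg w j = ∏ j, (w j : ℤ) := by
    rw [← Fin.prod_univ_eq_prod_range]
    refine Finset.prod_congr rfl fun j _ => ?_
    unfold deg
    rw [dif_pos j.2]
  have key := Pool.Agent.Q133.DW.bounds (k := k) (M := M) (var k m) m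
    (by
      intro l hl s hs
      rw [hvar] at hs ⊢
      exact cL_regular _ (List.nodup_finRange m) l (by rw [hlen]; exact hl) s hs)
    (by
      intro s
      obtain ⟨a, ha⟩ := cL_const (k := k) (List.finRange m) (fun j => List.mem_finRange j) s
      rw [hvar]
      rw [hlen] at ha
      exact ⟨a, ha⟩)
    ℳ hℳ (deg w) (by
      intro j hj
      unfold deg
      rw [dif_pos hj]
      exact_mod_cast hw ⟨j, hj⟩) (by
      intro j hj γ x hx
      have := hX ⟨j, hj⟩ γ x hx
      unfold var deg
      rw [dif_pos hj, dif_pos hj]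
      exact this)
    a b W.mono_a W.mono_b W.mem i hi W.le W.below W.above R
  rw [hdeg] at key
  obtain ⟨k1, k2, k3, k4⟩ := key
  have hβ' : β = ∑ E ∈ Finset.Icc (a 0) (b 0),
      (Module.finrank k ((kx (opv k (var k m) M) ℳ (deg w) m E).H ((0 : ℕ) : ℤ)) : ℤ) := hβ
  rw [← hβ'] at k2 k3 k4
  refine ⟨k3, k1, k2, fun h => ⟨k4 h, ?_⟩⟩
  have h1 := k4 h
  have h2 : (m.choose i : ℤ) ≤ R.rank i := by
    refine le_trans ?_ h1
    nlinarith [Int.natCast_nonneg (m.choose i)]
  exact_mod_cast h2

end Pool.Agent.Results.MP_e2ce73_al.DegreeWindows
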