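import Pool.Agent.Q133.HL.Main
import Pool.Agent.TH488.BEH.Final

set_option autoImplicit false

/-!
# Horrocks' bounds for limits, the points of the support being allowed to collide

Let `f_1, …, f_m` be a regular sequence in the `k`-algebra `S` with `S = k + (f)`, for example the
variables of a polynomial ring over the field `k`, and let `M` be an `S`-module of finite dimension
`N` over `k` on which the `f_j` are nilpotent. Suppose that `M` is a specialisation: there are a
domain `A`, a homomorphism `φ : A → L` to an extension field `L` of `k` and pairwise commuting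
`N × N` matrices `Z_1, …, Z_m` over `A` such that `φ (Z_j)` is the matrix of `f_j` on `M`. Suppose
that over an infinite field `K` containing `A` the family has a nonzero direct summand `E` supported
at one point `(c_1, …, c_m)` of `K^m`. The point is arbitrary, and so are the other points of the
support. Suppose finally that the operators `Z_j - c_j` act on `E` as elements `e_j` of an ideal
`(a_1, …, a_q)` of a commutative `K`-algebra `B` acting on `E`, `q ≤ m`, the `a_j` being nilpotent on
`E` and homogeneous for a `ℤ^r`-grading of `E`, no more than four of them of degree zero, and for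
every coordinate `t` no more than two of the degrees having `t` as their first nonzero coordinate
(for `r = 0` this means `q ≤ 4` and there is no other condition on `E`).

Then every resolution of `M` by finite free `S`-modules has `rank F_i ≥ m.choose i`.

So Horrocks' bounds hold for every module or algebra of finite length which is a limit of modules
or algebras with a component of length one (in particular for all smoothable modules and algebras),
or with a direct summand at some point on which the maximal ideal of that point acts through an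
ideal with at most four generators (in particular for all limits of algebras having one local
component of embedding dimension at most four), or with a direct summand which is multigraded.
-/

namespace Pool.Agent.Results.MP_e2ce73_al.LimitsOfModules

open Matrix Pool.Agent.W650 Pool.Agent.TH488.BEH Pool.Agent.Q133.HL

universe u v w

theorem result (k : Type u) [Field k] (S : Type w) [CommRing S] [Algebra k S]
    (m N : ℕ) (f : Fin m → S)
    (hreg : ∀ (l : Fin m) (s : S), f l * s ∈ Ideal.span (f '' Set.Iio l) →
      s ∈ Ideal.span (f '' Set.Iio l))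
    (hres : ∀ s : S, ∃ c : k, s - algebraMap k S c ∈ Ideal.span (Set.range f))
    -- the module `M`, supported at the origin
    (M : Type v) [AddCommGroup M] [Module k M] [Module S M] [IsScalarTower k S M]
    (hnil : ∀ j : Fin m, ∃ s : ℕ, ∀ x : M, f j ^ s • x = 0)
    (b : Module.Basis (Fin N) k M)
    -- the family with special fibre `M`
    (A : Type w) [CommRing A] [IsDomain A] (L : Type w) [Field L] [Algebra k L] (φ : A →+* L)
    (K : Type w) [Field K] [Infinite K] [Algebra A K] (hAK : Function.Injective (algebraMap A K))
    (Z : Fin m → Matrix (Fin N) (Fin N) A) (hZ : ∀ i j, Z i * Z j = Z j * Z i)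
    (hφ : ∀ j a c, φ (Z j a c) = algebraMap k L (b.repr (f j • b c) a))
    -- the direct summand `E` of the generic fibre, supported at the point `c`
    (E : Type w) [AddCommGroup E] [Module K E] [Nontrivial E]
    (B : Type w) [CommRing B] [Algebra K B] [Module B E] [IsScalarTower K B E]
    (c : Fin m → K) (e : Fin m → B)
    (ι : E →ₗ[K] (Fin N → K)) (p : (Fin N → K) →ₗ[K] E) (hp : ∀ x, p (ι x) = x)
    (hι : ∀ j x, ((Z j).map (algebraMap A K)) *ᵥ ι x = ι (e j • x) + c j • ι x)
    (hp' : ∀ j y, p (((Z j).map (algebraMap A K)) *ᵥ y) = e j • p y + c j • p y)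
    (q : ℕ) (hq : q ≤ m) (a : Fin q → B)
    (ha : ∀ j, ∃ s : ℕ, ∀ x : E, a j ^ s • x = 0)
    (he : ∀ j, e j ∈ Ideal.span (Set.range a))
    (r : ℕ) (deg : Fin q → Fin r → ℤ)
    (h4 : {j : Fin q | deg j = 0}.ncard ≤ 4)
    (h2 : ∀ t : Fin r, {j : Fin q | deg j t ≠ 0 ∧ ∀ u < t, deg j u = 0}.ncard ≤ 2)
    (ℰ : (Fin r → ℤ) → Submodule K E) (hℰ : DirectSum.IsInternal ℰ)
    (hdeg : ∀ (j : Fin q) (γ : Fin r → ℤ), ∀ x ∈ ℰ γ, a j • x ∈ ℰ (γ + deg j))
    -- the resolution of `M`
    (F : ℕ → Type v) [∀ i, AddCommGroup (F i)] [∀ i, Module S (F i)]
    [∀ i, Module.Free S (F i)] [∀ i, Module.Finite S (F i)]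
    (d : ∀ i, F (i + 1) →ₗ[S] F i) (ε : F 0 →ₗ[S] M) (hε : Function.Surjective ε)
    (hd0 : LinearMap.range (d 0) = LinearMap.ker ε)
    (hd : ∀ i, LinearMap.range (d (i + 1)) = LinearMap.ker (d i)) (i : ℕ) :
    m.choose i ≤ Module.finrank S (F i) := by
  have hfdM : FiniteDimensional k M := b.finiteDimensional_of_finite
  have hιinj : Function.Injective ι := Function.LeftInverse.injective hp
  have hfdE : FiniteDimensional K E := FiniteDimensional.of_injective ι hιinj
  have hNM : Nontrivial M := by
    obtain ⟨x, hx⟩ := exists_ne (0 : E)
    have hN : N ≠ 0 := by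
      rintro rfl
      exact hx (hιinj (Subsingleton.elim _ _))
    exact ⟨b ⟨0, Nat.pos_of_ne_zero hN⟩, 0, b.ne_zero _⟩
  have : Nontrivial S := Module.nontrivial S M
  -- the Koszul homology of `E`
  have key : m.choose i ≤ hk (fun j => oo K E (ex e j)) m i := by
    obtain ⟨l, hl, hlA, hgood⟩ := exists_order q r Finset.univ deg (by simpa using h4)
      (by simpa using h2)
    have hmem : ∀ j, j ∈ l := fun j => by
      rw [← List.mem_toFinset, hlA]
      exact Finset.mem_univ j
    have hlen : l.length = q := by
      rw [← List.toFinset_card_of_nodup hl, hlA, Finset.card_univ, Fintype.card_fin]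
    let aL : ℕ → B := fun j => if h : j < l.length then a l[j] else 0
    have haL : ∀ (j : ℕ) (hj : j < l.length), aL j = a l[j] := fun j hj => dif_pos hj
    have hb : ∀ i : ℕ, l.length.choose i ≤ hk (fun j => oo K E (aL j)) l.length i := by
      intro i
      refine hk_ge r E l.length (fun j => oo K E (aL j))
        (fun j => if h : j < l.length then deg l[j] else 0) ℰ ?_ ?_ hℰ.submodule_iSupIndep
        hℰ.submodule_iSup_eq_top ?_ (hgood _ (fun j hj => by simp only [dif_pos hj])) i
      · intro i _ j _ m
        exact oo_comm _ _ m
      · intro j hj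
        rw [haL j hj]
        exact isNilpotent_oo _ (ha _)
      · intro j hj γ v hv
        rw [haL j hj, dif_pos hj]
        exact hdeg _ γ v hv
    have hspan : Ideal.span (Set.range a) ≤
        Ideal.span (Set.range fun j : Fin l.length => aL j) := by
      rw [Ideal.span_le]
      rintro _ ⟨j, rfl⟩
      obtain ⟨n, hn, e⟩ := List.getElem_of_mem (hmem j)
      refine Ideal.subset_span ⟨⟨n, hn⟩, ?_⟩
      change aL n = a j
      rw [haL n hn, e]
    refine choose_le_hk l.length m (by omega) aL (ex e) ?_ hb i
    intro j hj
    rw [ex_lt e j hj]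
    exact hspan (he _)
  -- the comparison
  have h3 : hk (fun j => oo K E (ex e j)) m i ≤ hk (opv k (ex f) M) m i := by
    refine core b m (opv k (ex f) M) (opv_comm _ M _) ?_ φ hAK (ex Z) ?_ ?_ (ex c) ι p hp
      (fun j => oo K E (ex e j)) ?_ ?_ ?_ i
    · intro j hj
      obtain ⟨s, hs⟩ := hnil ⟨j, hj⟩
      refine ⟨s, ?_⟩
      have h5 : ((opv k (ex f) M j : Module.End k M) ^ s) =
          Algebra.lsmul k k M ((ex f j) ^ s) := by
        rw [map_pow]
        rfl
      rw [h5, ex_lt f j hj]
      exact LinearMap.ext hs
    · intro i hi j hj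
      rw [ex_lt Z i hi, ex_lt Z j hj]
      exact hZ _ _
    · intro j hj
      rw [ex_lt Z j hj]
      ext x y
      rw [Matrix.map_apply, Matrix.map_apply, hφ, LinearMap.toMatrix_apply, opv_apply,
        ex_lt f j hj]
    · intro j hj x
      rw [ex_lt Z j hj, ex_lt c j hj, oo_apply, ex_lt e j hj]
      exact hι _ x
    · intro j hj y
      rw [ex_lt Z j hj, ex_lt c j hj, oo_apply, ex_lt e j hj]
      exact hp' _ y
    · intro j hj
      rw [ex_lt e j hj]
      exact isNilpotent_oo _ (nil_of_span a ha _ (he _))
  have h5 := rank_koszul_le (k := k) (ex f) m (by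
    intro l hl s hs
    rw [ex_lt f l hl, II_ex f l hl] at hs
    rw [II_ex f l hl]
    exact hreg _ s hs) (by rw [II_ex_top]; exact hres) i M F d ε hε hd0 hd
  rw [← Module.finrank_eq_rank] at h5
  have h6 : Module.finrank k ((koszul (opv k (ex f) M) m).H i) ≤ Module.finrank S (F i) := by
    exact_mod_cast h5
  exact (key.trans h3).trans h6

end Pool.Agent.Results.MP_e2ce73_al.LimitsOfModules
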